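import Pool.Agent.Helper14_DK.Stmts

/-!
# Squad DK, module PC1: the Levi form of the local defining functions
-/

set_option autoImplicit false

namespace Pool.Agent.DK.H63

open MeasureTheory Complex Set Metric Filter
open scoped ContDiff Topology

variable {n : ℕ}

theorem nsq_nonneg (z : E n) : 0 ≤ nsq z := Finset.sum_nonneg fun _ _ => by positivity

theorem contDiff_nsq (p : E n) {m : WithTop ℕ∞} : ContDiff ℝ m (fun y : E n => nsq (y - p)) := by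
  unfold nsq
  refine ContDiff.sum fun j _ => ?_
  have h1 : ContDiff ℝ m (fun y : E n => (y - p) j) :=
    ((ContinuousLinearMap.proj (R := ℝ) (φ := fun _ : Fin n => ℂ) j).contDiff).comp
      (contDiff_id.sub contDiff_const)
  exact h1.norm_sq ℝ

/-- Cauchy-Schwarz -/
theorem cs (a w : E n) :
    ‖∑ j, w j * (starRingEnd ℂ) (a j)‖ ^ 2 ≤ nsq w * nsq a := by
  have h1 : ‖∑ j, w j * (starRingEnd ℂ) (a j)‖ ≤ ∑ j, ‖w j‖ * ‖a j‖ := by
    refine (norm_sum_le _ _).trans (le_of_eq (Finset.sum_congr rfl fun j _ => ?_))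
    rw [norm_mul, RCLike.norm_conj]
  have h2 : (∑ j, ‖w j‖ * ‖a j‖) ^ 2 ≤ (∑ j, ‖w j‖ ^ 2) * ∑ j, ‖a j‖ ^ 2 :=
    Finset.sum_mul_sq_le_sq_mul_sq _ _ _
  exact (pow_le_pow_left₀ (norm_nonneg _) h1 2).trans h2

theorem deriv_h (Λ : ℝ) : deriv (fun x : ℝ => Real.exp (-(Λ * x))) =
    fun x => -Λ * Real.exp (-(Λ * x)) := by
  funext x
  have h1 : HasDerivAt (fun x : ℝ => -(Λ * x)) (-(Λ * 1)) x :=
    ((hasDerivAt_id x).const_mul Λ).neg
  have h2 := h1.exp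
  rw [h2.deriv]
  ring

theorem deriv_h2 (Λ x : ℝ) : deriv (deriv (fun x : ℝ => Real.exp (-(Λ * x)))) x =
    Λ ^ 2 * Real.exp (-(Λ * x)) := by
  rw [deriv_h]
  have h1 : HasDerivAt (fun x : ℝ => -(Λ * x)) (-(Λ * 1)) x :=
    ((hasDerivAt_id x).const_mul Λ).neg
  have h2 := (h1.exp).const_mul (-Λ)
  rw [h2.deriv]
  ring

theorem pc1 (hLEV : LevStmt) (hLC : LcStmt) : Pc1Stmt := by
  intro n hn ρ κ₀ hN
  obtain ⟨C, κ₁, hC, hκ₁, hκ₁', hL⟩ := hLEV n hn ρ κ₀ hN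
  obtain ⟨c1, c2, c3, c4, -, -⟩ := hLC n
  have hh0 : 0 < 1 / (4 * (C + 1)) := by positivity
  refine ⟨4 * C, 1 / (4 * (C + 1)), κ₁ / 2, C, by positivity, hh0, by positivity,
    by linarith, hC, ?_⟩
  intro p h κ hh hh' hκ hκ' z hz hρ hφ w
  set Λ : ℝ := 4 * C with hΛ
  set e : ℝ := Real.exp (-(Λ * nsq (z - p))) with he
  have he0 : 0 < e := Real.exp_pos _
  have hΛ0 : 0 < Λ := by positivity
  have he1 : e ≤ 1 := by
    rw [he, Real.exp_le_one_iff]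
    have := nsq_nonneg (z - p)
    nlinarith
  have sρ : ContDiffAt ℝ 2 ρ z := hN.smooth.contDiffAt.of_le ENat.LEInfty.out
  have sN : ContDiffAt ℝ 2 (fun y : E n => nsq (y - p)) z := (contDiff_nsq p).contDiffAt
  have sh : ContDiffAt ℝ 2 (fun x : ℝ => Real.exp (-(Λ * x))) (nsq (z - p)) := by
    have : ContDiff ℝ 2 (fun x : ℝ => Real.exp (-(Λ * x))) :=
      ((contDiff_const.mul contDiff_id).neg).exp
    exact this.contDiffAt
  have sE : ContDiffAt ℝ 2 (fun y : E n => Real.exp (-(Λ * nsq (y - p)))) z :=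
    (((contDiff_const.mul (contDiff_nsq p)).neg).exp).contDiffAt
  have sκ : ContDiffAt ℝ 2 (fun y : E n => -κ * Real.exp (-(Λ * nsq (y - p)))) z :=
    contDiffAt_const.mul sE
  have e0 : phi ρ κ Λ p = fun y => ρ y + -κ * Real.exp (-(Λ * nsq (y - p))) := by
    funext y
    unfold phi
    ring
  obtain ⟨a1, a2⟩ := c1 ρ (fun y => -κ * Real.exp (-(Λ * nsq (y - p)))) z w sρ sκ
  obtain ⟨b1, b2⟩ := c2 (-κ) (fun y => Real.exp (-(Λ * nsq (y - p)))) z w sE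
  obtain ⟨d1, d2⟩ := c3 (fun x : ℝ => Real.exp (-(Λ * x))) (fun y => nsq (y - p)) z w sN sh
  obtain ⟨f1, f2⟩ := c4 p z w
  have g1 : deriv (fun x : ℝ => Real.exp (-(Λ * x))) (nsq (z - p)) = -Λ * e := by
    rw [deriv_h]
  have g2 : deriv (deriv (fun x : ℝ => Real.exp (-(Λ * x)))) (nsq (z - p)) = Λ ^ 2 * e :=
    deriv_h2 Λ _
  set q : ℂ := dl (fun y => nsq (y - p)) z w with hq
  have hqn : ‖q‖ ^ 2 ≤ nsq w * h ^ 2 := by
    rw [f2]
    refine (cs (z - p) w).trans ?_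
    exact mul_le_mul_of_nonneg_left hz (nsq_nonneg w)
  have hLv : Lv (phi ρ κ Λ p) z w = Lv ρ z w + κ * Λ * e * nsq w - κ * Λ ^ 2 * e * ‖q‖ ^ 2 := by
    rw [e0, a1, b1, d1, g1, g2, f1]
    ring
  have hdl : dl (phi ρ κ Λ p) z w = dl ρ z w + ((κ * Λ * e : ℝ) : ℂ) * q := by
    rw [e0, a2, b2, d2, g1]
    push_cast
    ring
  set s : ℝ := Real.sqrt (nsq w) with hs
  have hs0 : 0 ≤ s := Real.sqrt_nonneg _
  have hss : s ^ 2 = nsq w := Real.sq_sqrt (nsq_nonneg w)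
  have hq1 : ‖q‖ ≤ s * h := by
    have h1 : ‖q‖ ^ 2 ≤ (s * h) ^ 2 := by
      rw [mul_pow, hss]
      exact hqn
    exact (pow_le_pow_iff_left₀ (norm_nonneg _) (by positivity) (by norm_num)).1 h1
  have hdρ : ‖dl ρ z w‖ ≤ ‖dl (phi ρ κ Λ p) z w‖ + κ * Λ * e * (s * h) := by
    have h1 : dl ρ z w = dl (phi ρ κ Λ p) z w - ((κ * Λ * e : ℝ) : ℂ) * q := by
      rw [hdl]
      ring
    rw [h1]
    refine (norm_sub_le _ _).trans ?_
    have h2 : ‖((κ * Λ * e : ℝ) : ℂ) * q‖ ≤ κ * Λ * e * (s * h) := by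
      rw [norm_mul, Complex.norm_real, Real.norm_of_nonneg (by positivity)]
      exact mul_le_mul_of_nonneg_left hq1 (by positivity)
    linarith
  have hρκ : ρ z ≤ κ * e := by
    unfold phi at hφ
    linarith
  have hρabs : |ρ z| < κ₁ := by
    rw [abs_of_nonneg hρ]
    have h1 : κ * e ≤ κ * 1 := mul_le_mul_of_nonneg_left he1 hκ.le
    linarith
  have h1 := hL z hρabs w
  rw [abs_of_nonneg hρ] at h1
  -- the numbers
  have hCh : C * h ≤ 1 / 4 := by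
    have h2 : C * h ≤ C * (1 / (4 * (C + 1))) := mul_le_mul_of_nonneg_left hh' hC.le
    have h3 : C * (1 / (4 * (C + 1))) ≤ 1 / 4 := by
      rw [mul_one_div, div_le_div_iff₀ (by positivity) (by norm_num)]
      linarith
    linarith
  have hhle : h ≤ 1 / 4 := by
    refine hh'.trans ?_
    rw [div_le_div_iff₀ (by positivity) (by norm_num)]
    linarith
  have hΛh : Λ * h ^ 2 ≤ 1 / 4 := by
    have h2 : Λ * h ^ 2 = 4 * (C * h) * h := by rw [hΛ]; ring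
    rw [h2]
    nlinarith
  have k0 : 0 ≤ κ * e := by positivity
  have hw := nsq_nonneg w
  -- lower bounds
  have t1 : C * ρ z * nsq w ≤ C * (κ * e) * nsq w := by
    have : C * ρ z ≤ C * (κ * e) := mul_le_mul_of_nonneg_left hρκ hC.le
    exact mul_le_mul_of_nonneg_right this hw
  have t2 : C * ‖dl ρ z w‖ * s ≤ C * ‖dl (phi ρ κ Λ p) z w‖ * s +
      (C * h) * (κ * e) * Λ * nsq w := by
    have h2 : C * ‖dl ρ z w‖ * s ≤ C * (‖dl (phi ρ κ Λ p) z w‖ + κ * Λ * e * (s * h)) * s :=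
      mul_le_mul_of_nonneg_right (mul_le_mul_of_nonneg_left hdρ hC.le) hs0
    have h3 : C * (‖dl (phi ρ κ Λ p) z w‖ + κ * Λ * e * (s * h)) * s =
        C * ‖dl (phi ρ κ Λ p) z w‖ * s + (C * h) * (κ * e) * Λ * s ^ 2 := by ring
    rw [h3, hss] at h2
    exact h2
  have t3 : (C * h) * (κ * e) * Λ * nsq w ≤ 1 / 4 * (κ * e) * Λ * nsq w := by
    refine mul_le_mul_of_nonneg_right ?_ hw
    refine mul_le_mul_of_nonneg_right ?_ hΛ0.le
    exact mul_le_mul_of_nonneg_right hCh k0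
  have t4 : κ * Λ ^ 2 * e * ‖q‖ ^ 2 ≤ 1 / 4 * (κ * e) * Λ * nsq w := by
    have h2 : κ * Λ ^ 2 * e * ‖q‖ ^ 2 ≤ κ * Λ ^ 2 * e * (nsq w * h ^ 2) :=
      mul_le_mul_of_nonneg_left hqn (by positivity)
    have h3 : κ * Λ ^ 2 * e * (nsq w * h ^ 2) = (Λ * h ^ 2) * ((κ * e) * Λ * nsq w) := by ring
    have h4 : (Λ * h ^ 2) * ((κ * e) * Λ * nsq w) ≤ 1 / 4 * ((κ * e) * Λ * nsq w) :=
      mul_le_mul_of_nonneg_right hΛh (by positivity)
    linarith
  have t5 : (κ * e) * Λ * nsq w = 4 * (C * (κ * e) * nsq w) := by rw [hΛ]; ring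
  rw [hLv]
  have t6 : C * κ * e * nsq w = C * (κ * e) * nsq w := by ring
  have t7 : κ * Λ * e * nsq w = (κ * e) * Λ * nsq w := by ring
  rw [t6, t7]
  nlinarith [h1, t1, t2, t3, t4, t5]

end Pool.Agent.DK.H63
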