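import Pool.Agent.Helper14_DK.Stmts

/-!
# Squad DK, module TEL: the telescoping identity
-/

set_option autoImplicit false

namespace Pool.Agent.DK.H63

open MeasureTheory Complex Set Metric Filter
open scoped ContDiff Topology

variable {n : ℕ}

theorem scl_smooth {δ : ℝ} {g : E n → ℂ} (hg : ContDiff ℝ ∞ g) : ContDiff ℝ ∞ (scl δ g) := by
  unfold scl
  exact contDiff_const.mul (hg.comp (contDiff_const_smul _))

theorem scl_supp {δ : ℝ} (hδ : 0 < δ) {g : E n → ℂ} (hg : ∀ y, 1 ≤ ‖y‖ → g y = 0) (y : E n)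
    (hy : δ ≤ ‖y‖) : scl δ g y = 0 := by
  unfold scl
  have h1 : 1 ≤ ‖δ⁻¹ • y‖ := by
    rw [norm_smul, Real.norm_of_nonneg (inv_nonneg.2 hδ.le), ← div_eq_inv_mul, le_div_iff₀ hδ]
    linarith
  rw [hg _ h1, mul_zero]

theorem dbar_scl {δ : ℝ} {g : E n → ℂ} (hg : ContDiff ℝ ∞ g) (i : Fin n) (y : E n) :
    dbar i (scl δ g) y = (((δ⁻¹) ^ (2 * n) : ℝ) : ℂ) * (((δ⁻¹ : ℝ) : ℂ) * dbar i g (δ⁻¹ • y)) := by
  have hd : Differentiable ℝ g := hg.differentiable (by simp)
  have h1 : HasFDerivAt (fun y : E n => g (δ⁻¹ • y))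
      ((fderiv ℝ g (δ⁻¹ • y)).comp (δ⁻¹ • ContinuousLinearMap.id ℝ (E n))) y := by
    have h2 : HasFDerivAt (fun y : E n => δ⁻¹ • y) (δ⁻¹ • ContinuousLinearMap.id ℝ (E n)) y :=
      (δ⁻¹ • ContinuousLinearMap.id ℝ (E n)).hasFDerivAt
    exact (hd (δ⁻¹ • y)).hasFDerivAt.comp y h2
  have h3 : DifferentiableAt ℝ (fun y : E n => g (δ⁻¹ • y)) y := h1.differentiableAt
  have h4 : dbar i (fun y : E n => g (δ⁻¹ • y)) y = ((δ⁻¹ : ℝ) : ℂ) * dbar i g (δ⁻¹ • y) := by
    unfold dbar
    rw [h1.fderiv]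
    simp only [ContinuousLinearMap.comp_apply, smul_apply,
      ContinuousLinearMap.id_apply, map_smul, Complex.real_smul]
    ring
  unfold scl
  rw [dbar_const_mul _ h3, h4]

/-- translates of kernels supported in a ball of radius `δ` are test functions -/
theorem test_translate {D : Set (E n)} {δ : ℝ} {z : E n} (hz : closedBall z δ ⊆ D) {g : E n → ℂ}
    (hg : ContDiff ℝ ∞ g) (hs : ∀ y, δ ≤ ‖y‖ → g y = 0) : IsTest D (fun w => g (z - w)) := by
  have h0 : ∀ w, w ∉ closedBall z δ → g (z - w) = 0 := by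
    intro w hw
    refine hs _ ?_
    rw [mem_closedBall, not_le, dist_eq_norm] at hw
    rw [norm_sub_rev]
    exact hw.le
  refine ⟨hg.comp (contDiff_const.sub contDiff_id), ?_, ?_⟩
  · exact HasCompactSupport.intro' (isCompact_closedBall z δ) isClosed_closedBall h0
  · refine (closure_minimal (fun w hw => ?_) isClosed_closedBall).trans hz
    by_contra hc
    exact hw (h0 w hc)

/-- the weak equation against translated kernels -/
theorem conv_dbar {D : Set (E n)} {F : E n → ℂ} {α : Fin n → E n → ℂ} (hW : WDb D F α) {δ : ℝ}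
    {z : E n} (hz : closedBall z δ ⊆ D) {g : E n → ℂ} (hg : ContDiff ℝ ∞ g)
    (hs : ∀ y, δ ≤ ‖y‖ → g y = 0) (i : Fin n) :
    conv F (dbar i g) z = conv (α i) g z := by
  have h1 := hW i _ (test_translate hz hg hs)
  unfold conv
  have h2 : ∀ w, F w * dbar i (fun w => g (z - w)) w = -(F w * dbar i g (z - w)) := by
    intro w
    rw [dbar_comp_sub_left]
    ring
  rw [integral_congr_ae (Eventually.of_forall h2), integral_neg, neg_inj] at h1
  exact h1

/-- kernels with compact support are integrable against `L²` functions -/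
theorem conv_int {F : E n → ℂ} (hF : MemLp F 2 volume) {δ : ℝ} (z : E n) {g : E n → ℂ}
    (hg : ContDiff ℝ ∞ g) (hs : ∀ y, δ ≤ ‖y‖ → g y = 0) :
    Integrable (fun w => F w * g (z - w)) :=
  integrable_mul_test' hF (test_translate (D := univ) (subset_univ _) hg hs)

theorem dbar_supp {δ : ℝ} {g : E n → ℂ} (hs : ∀ y, δ ≤ ‖y‖ → g y = 0) (i : Fin n) (y : E n)
    (hy : δ < ‖y‖) : dbar i g y = 0 := by
  have h1 : g =ᶠ[𝓝 y] fun _ => 0 := by
    have : {x : E n | δ < ‖x‖} ∈ 𝓝 y := (isOpen_lt continuous_const continuous_norm).mem_nhds hy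
    filter_upwards [this] with x hx
    exact hs x (le_of_lt hx)
  rw [dbar_congr h1, dbar_const]

theorem tel (hC : CnvStmt) : TelStmt := by
  intro n θ φ V hθ hθ1 hK D F α hD hF hα hW δ z hδ hz
  have hφs : ContDiff ℝ ∞ (cx φ) := contDiff_cx hK.smφ
  have hφ0 : ∀ y, 1 ≤ ‖y‖ → cx φ y = 0 := fun y hy => by
    unfold cx
    rw [hK.supp y hy]
    simp
  have hθδ : 0 < θ * δ := mul_pos hθ hδ
  have hθδ' : θ * δ ≤ δ := by nlinarith
  have hsub : closedBall z (θ * δ) ⊆ D := (closedBall_subset_closedBall hθδ').trans hz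
  refine ⟨?_, ?_⟩
  · -- the identity of the kernels
    have hker : ∀ y : E n, scl (θ * δ) (cx φ) y - scl δ (cx φ) y =
        (δ : ℂ) * ∑ i, dbar i (scl δ (V i)) y := by
      intro y
      have h1 := hK.eq (δ⁻¹ • y)
      have h2 : ∀ i, dbar i (scl δ (V i)) y =
          (((δ⁻¹) ^ (2 * n) : ℝ) : ℂ) * (((δ⁻¹ : ℝ) : ℂ) * dbar i (V i) (δ⁻¹ • y)) :=
        fun i => dbar_scl (hK.smV i) i y
      simp only [h2]
      rw [← Finset.mul_sum, ← Finset.mul_sum, ← h1]
      unfold scl cx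
      have h3 : (θ * δ)⁻¹ • y = θ⁻¹ • δ⁻¹ • y := by
        rw [smul_smul, mul_inv]
      rw [h3]
      have h4 : (δ : ℂ) ≠ 0 := by exact_mod_cast hδ.ne'
      push_cast
      rw [mul_inv, mul_pow]
      field_simp
    have e1 : conv F (scl (θ * δ) (cx φ)) z - conv F (scl δ (cx φ)) z =
        ∫ w, F w * ((δ : ℂ) * ∑ i, dbar i (scl δ (V i)) (z - w)) := by
      unfold conv
      rw [← integral_sub (conv_int hF z (scl_smooth hφs) (scl_supp hθδ hφ0))
        (conv_int hF z (scl_smooth hφs) (scl_supp hδ hφ0))]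
      refine integral_congr_ae (Eventually.of_forall fun w => ?_)
      show F w * scl (θ * δ) (cx φ) (z - w) - F w * scl δ (cx φ) (z - w) = _
      rw [← mul_sub, hker]
    have hint : ∀ i, Integrable (fun w => F w * dbar i (scl δ (V i)) (z - w)) := by
      intro i
      refine conv_int (δ := δ + 1) hF z (contDiff_dbar (scl_smooth (hK.smV i))) ?_
      intro y hy
      exact dbar_supp (scl_supp hδ (hK.suppV i)) i y (by linarith)
    have e2 : ∫ w, F w * ((δ : ℂ) * ∑ i, dbar i (scl δ (V i)) (z - w)) =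
        (δ : ℂ) * ∑ i, conv F (dbar i (scl δ (V i))) z := by
      unfold conv
      rw [← integral_finsetSum _ (fun i _ => hint i), ← integral_const_mul]
      refine integral_congr_ae (Eventually.of_forall fun w => ?_)
      show F w * ((δ : ℂ) * ∑ i, dbar i (scl δ (V i)) (z - w)) =
        (δ : ℂ) * ∑ i, F w * dbar i (scl δ (V i)) (z - w)
      rw [← Finset.mul_sum]
      ring
    rw [e1, e2]
    congr 1
    refine Finset.sum_congr rfl fun i _ => ?_
    exact conv_dbar hW hz (scl_smooth (hK.smV i)) (scl_supp hδ (hK.suppV i)) i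
  · intro i
    have hcs : HasCompactSupport (scl δ (cx φ)) :=
      HasCompactSupport.intro' (isCompact_closedBall (0 : E n) δ) isClosed_closedBall
        fun y hy => scl_supp hδ hφ0 y (by
          rw [mem_closedBall, not_le, dist_zero_right] at hy
          exact hy.le)
    have h1 := (hC n F (scl δ (cx φ)) (hF.locallyIntegrable (by norm_num))
      (scl_smooth hφs) hcs).2.1 i z
    rw [h1]
    exact conv_dbar hW hz (scl_smooth hφs) (scl_supp hδ hφ0) i

end Pool.Agent.DK.H63
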